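import Mathlib
import Pool.Agent.N988.EA.Defs

/-!
# The Potts model on hierarchical lattices: definitions

The hierarchical (diamond, Migdal-Kadanoff) lattices `H n` with `b` branches (`Edge b n`, `Vert b n`,
`Pt b n`, `emb`, `bd`), of dimension `1 + log_2 b`, are defined in `Pool.Agent.N988.EA.Defs`.
-/

open MeasureTheory
open Pool.Agent.N988.EA

namespace Pool.Agent.N990.PT

noncomputable section

/-- The vertices of the infinite lattice, the union of `H 0 ⊆ H 1 ⊆ …`, where `H n` is the half
`(p n).2` of the branch `(p n).1` of `H (n + 1)`: those of `H 0`, and for every `n` the vertices of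
`H (n + 1)` which are not in `H n`. -/
def VInf {b : ℕ} (p : ℕ → Fin b × Bool) : Type :=
  Pt b 0 ⊕ (Σ n : ℕ, {x : Pt b (n + 1) // ∀ y, emb (p n).1 (p n).2 y ≠ x})

open Classical in
/-- A vertex of `H n` as a vertex of the infinite lattice. -/
def inc {b : ℕ} (p : ℕ → Fin b × Bool) : (n : ℕ) → Pt b n → VInf p
  | 0, x => .inl x
  | n + 1, x => if h : ∃ y, emb (p n).1 (p n).2 y = x then inc p n h.choose
      else .inr ⟨n, ⟨x, fun y hy => h ⟨y, hy⟩⟩⟩

open Classical in
/-- The configuration `ω` of the infinite lattice with the spins inside `H n` replaced by `s`. -/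
def repl {b q : ℕ} (p : ℕ → Fin b × Bool) (n : ℕ) (ω : VInf p → Fin q) (s : Vert b n → Fin q) :
    VInf p → Fin q :=
  fun v => if h : ∃ x : Vert b n, inc p n (.inr x) = v then s h.choose else ω v

/-- `β` times the number of the edges of `H n` whose ends have the same spin. -/
def act {b q : ℕ} (β : ℝ) (n : ℕ) (s : Pt b n → Fin q) : ℝ :=
  β * ∑ e : Edge b n, if s (bd n e false) = s (bd n e true) then (1 : ℝ) else 0

/-- The partition function of `H n` with the spins `τ` at the ends. -/
def Zf (b q : ℕ) (β : ℝ) (n : ℕ) (τ : Bool → Fin q) : ℝ :=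
  ∑ s : Vert b n → Fin q, Real.exp (act β n (Sum.elim τ s))

/-- The Gibbs distribution of the spins inside `H n` with the spins `τ` at the ends. -/
def gw {b q : ℕ} (β : ℝ) (n : ℕ) (τ : Bool → Fin q) (s : Vert b n → Fin q) : ℝ :=
  Real.exp (act β n (Sum.elim τ s)) / Zf b q β n τ

/-- `μ` is a Gibbs state of the Potts model with `q` colours at the inverse temperature `β` on the
infinite lattice: for all `n`, the spins inside `H n` have, given all other spins, the Gibbs
distribution of `H n` with the given spins at the ends of `H n` (the DLR equations). -/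
structure IsGibbs {b q : ℕ} (β : ℝ) (p : ℕ → Fin b × Bool) (μ : Measure (VInf p → Fin q)) :
    Prop where
  prob : IsProbabilityMeasure μ
  dlr : ∀ (n : ℕ) (f : (VInf p → Fin q) → ℝ), Measurable f → (∃ C, ∀ ω, |f ω| ≤ C) →
    ∫ ω, f ω ∂μ = ∫ ω, ∑ s : Vert b n → Fin q,
      gw β n (fun t => ω (inc p n (.inl t))) s * f (repl p n ω s) ∂μ

/-- The effective coupling of the ends of `H n` (Migdal-Kadanoff recursion). -/
def Kf (b q : ℕ) (β : ℝ) : ℕ → ℝ
  | 0 => β
  | n + 1 => b * Real.log ((Real.exp (2 * Kf b q β n) + q - 1) /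
      (2 * Real.exp (Kf b q β n) + q - 2))

end

end Pool.Agent.N990.PT
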