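import Mathlib
import Pool.Agent.N990.PT.Defs

/-!
# The Potts model on hierarchical lattices: statements of the parts

Theorem: for all `b, q ≥ 2` and all real `β`, either the effective couplings are bounded and there
is exactly one Gibbs state (also at the critical point), or they tend to infinity and the Gibbs
states form a simplex with exactly `q` vertices, permuted by the permutations of the colours.
-/

open MeasureTheory Filter
open scoped ENNReal Topology
open Pool.Agent.N988.EA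

namespace Pool.Agent.N990.PT

noncomputable section

/-- The spins of the ends of `H n`. -/
def ends {b q : ℕ} (p : ℕ → Fin b × Bool) (n : ℕ) (ω : VInf p → Fin q) : Bool → Fin q :=
  fun t => ω (inc p n (.inl t))

/-- The conditional expectation given the spins outside the interior of `H n`. -/
def GG {b q : ℕ} (β : ℝ) (p : ℕ → Fin b × Bool) (n : ℕ) (f : (VInf p → Fin q) → ℝ)
    (ω : VInf p → Fin q) : ℝ :=
  ∑ s : Vert b n → Fin q, gw β n (ends p n ω) s * f (repl p n ω s)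

/-- The configuration `s` with the spins inside the half `r.2` of the branch `r.1` replaced. -/
def upd {b q : ℕ} (n : ℕ) (r : Fin b × Bool) (s : Vert b (n + 1) → Fin q) (s' : Vert b n → Fin q) :
    Vert b (n + 1) → Fin q :=
  fun x => Sum.elim (fun i : Fin b => s (Sum.inl i : Vert b (n + 1)))
    (fun y : Fin b × Bool × Vert b n => if (y.1, y.2.1) = r then s' y.2.2
      else s (Sum.inr y : Vert b (n + 1))) x

/-- The distribution of the spin between two spins `τ`, for two couplings `K` in series. -/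
def mw {q : ℕ} (K : ℝ) (τ : Bool → Fin q) (c : Fin q) : ℝ :=
  Real.exp (K * ((if c = τ false then 1 else 0) + if c = τ true then 1 else 0)) /
    ∑ a : Fin q, Real.exp (K * ((if a = τ false then 1 else 0) + if a = τ true then 1 else 0))

/-- GEO: adapt `Pool/Agent/N14/EJ/GEO.lean` (spins `Bool`, `b = 2`). -/
def S_GEO : Prop := ∀ (b q : ℕ) (p : ℕ → Fin b × Bool),
  Countable (VInf p) ∧
  (∀ n x, inc p (n + 1) (emb (p n).1 (p n).2 x) = inc p n x) ∧
  (∀ n, Function.Injective (inc p n)) ∧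
  (∀ v, ∃ n x, inc p n x = v) ∧
  (∀ n (ω : VInf p → Fin q) s, (∀ x, repl p n ω s (inc p n (.inr x)) = s x) ∧
    (∀ v, (∀ x, inc p n (.inr x) ≠ v) → repl p n ω s v = ω v)) ∧
  (∀ n (ω : VInf p → Fin q) s s',
    repl p n (repl p (n + 1) ω s) s' = repl p (n + 1) ω (upd n (p n) s s')) ∧
  (∀ n s, Continuous fun ω : VInf p → Fin q => repl p n ω s) ∧
  (∀ n s, Measurable fun ω : VInf p → Fin q => repl p n ω s)

/-- GWF: the weights. -/
def S_GWF : Prop := ∀ (b q : ℕ) (β : ℝ) (n : ℕ) (τ : Bool → Fin q),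
  0 < Zf b q β n τ ∧ (∀ s : Vert b n → Fin q, 0 ≤ gw β n τ s) ∧
  ∑ s : Vert b n → Fin q, gw β n τ s = 1

/-- FIN: the finite volume Gibbs distributions are consistent. Adapt
`Pool/Agent/N946/EJ/FIN.lean`. -/
def S_FIN : Prop := ∀ (b q : ℕ) (β : ℝ) (n : ℕ) (r : Fin b × Bool) (τ : Bool → Fin q)
  (G : (Vert b (n + 1) → Fin q) → ℝ),
  ∑ s, gw β (n + 1) τ s * G s = ∑ s, gw β (n + 1) τ s * ∑ s' : Vert b n → Fin q,
    gw β n (fun t => (Sum.elim τ s : Pt b (n + 1) → Fin q) (emb r.1 r.2 (.inl t))) s' *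
      G (upd n r s s')

/-- CNS (from `S_FIN`, `S_GEO`). Adapt `Pool/Agent/N371/EJ/CNS.lean`. -/
def S_CNS : Prop := ∀ (b q : ℕ) (β : ℝ) (p : ℕ → Fin b × Bool) (n : ℕ)
  (f : (VInf p → Fin q) → ℝ) ω, GG β p (n + 1) (GG β p n f) ω = GG β p (n + 1) f ω

/-- MID: the law of the middle vertex of a branch. Proof: first, by induction on `n`,
`Zf b q β n τ = C exp (Kf n [τ false = τ true])` with `C > 0`: the sum over the spins inside
`H (n + 1)` factorises over the branches and, given the middle spins, over the halves (as in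
`Pool/Agent/N271/EA_G.lean`), and `∑_c exp (K ([c = a] + [c = a'])) = exp (2 K) + q - 1` for `a = a'`,
`2 exp K + q - 2` for `a ≠ a'`. -/
def S_MID : Prop := ∀ (b q : ℕ), 2 ≤ q → ∀ (β : ℝ) (n : ℕ) (i : Fin b) (τ : Bool → Fin q)
  (F : Fin q → ℝ), ∑ s : Vert b (n + 1) → Fin q, gw β (n + 1) τ s * F (s (Sum.inl i)) =
    ∑ c, mw (Kf b q β n) τ c * F c

/-- TOP (from `S_MID`, `S_GEO`): the law of the ends of `H n` given the ends of `H (n + 1)`. Adapt
`Pool/Agent/N222/RT/TOP.lean`. -/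
def S_TOP : Prop := ∀ (b q : ℕ), 2 ≤ q → ∀ (β : ℝ) (p : ℕ → Fin b × Bool)
  (μ : Measure (VInf p → Fin q)), IsGibbs β p μ → ∀ (n : ℕ) (f : (Bool → Fin q) → ℝ),
    ∫ ω, f (ends p n ω) ∂μ = ∫ ω, ∑ c, mw (Kf b q β n) (ends p (n + 1) ω) c *
      f (fun t => if t = (p n).2 then ends p (n + 1) ω t else c) ∂μ

/-- DET (from `S_GEO`): a Gibbs state is determined by the laws of the ends. Adapt
`Pool/Agent/N249/RT/UNI.lean`. -/
def S_DET : Prop := ∀ (b q : ℕ) (β : ℝ) (p : ℕ → Fin b × Bool) (μ μ' : Measure (VInf p → Fin q)),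
  IsGibbs β p μ → IsGibbs β p μ' →
  (∀ (n : ℕ) (f : (Bool → Fin q) → ℝ), ∫ ω, f (ends p n ω) ∂μ = ∫ ω, f (ends p n ω) ∂μ') → μ = μ'

/-- UNI (from `S_TOP`, `S_DET`): uniqueness for bounded effective couplings. Proof: `mw K τ c ≥
exp (-(4 C)) / q`; contraction of the oscillation as in `Pool/Agent/N706/RT/OSC.lean`,
`Pool/Agent/N476/RT/UQE.lean`. -/
def S_UNI : Prop := ∀ (b q : ℕ), 2 ≤ q → ∀ (β : ℝ) (p : ℕ → Fin b × Bool),
  (∀ (s : Bool) (k : ℕ), ∃ n, k ≤ n ∧ (p n).2 = s) → (∃ C, ∀ n, |Kf b q β n| ≤ C) →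
  ∀ μ μ' : Measure (VInf p → Fin q), IsGibbs β p μ → IsGibbs β p μ' → μ = μ'

/-- EXI (from `S_CNS`, `S_GEO`, `S_GWF`): existence with the boundary condition `k`. Proof: let `μ_N`
be the law of `repl p N (fun _ => k) s`, `s` with law `gw β N (fun _ => k)`; a cluster point in the
compact space `ProbabilityMeasure (VInf p → Fin q)`, as in `Pool/Agent/N712/RT/EXI.lean`. The last
part: integrals of continuous functions (functions of the ends are continuous) are limits of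
`GG β p N f (fun _ => k)` along the ultrafilter. -/
def S_EXI : Prop := ∀ (b q : ℕ) (β : ℝ) (p : ℕ → Fin b × Bool) (k : Fin q),
  ∃ μ : Measure (VInf p → Fin q), IsGibbs β p μ ∧
    ∀ (n : ℕ) (f : (Bool → Fin q) → ℝ) (a : ℝ),
      (∀ᶠ N in atTop, a ≤ GG β p N (fun ω => f (ends p n ω)) fun _ => k) →
      a ≤ ∫ ω, f (ends p n ω) ∂μ

/-- GRO: growth of the effective couplings. Proof: `(exp (2 K) + q - 1) / (2 exp K + q - 2) ≥
exp K / q` for `K ≥ 0`, so `Kf (n + 1) ≥ b (Kf n - log q) ≥ Kf n + 1` if `Kf n ≥ 2 log q + 1`. Second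
part: `(exp (2 K) + q - 1) / (2 exp K + q - 2) ≥ 1` because the difference of numerator and
denominator is `(exp K - 1) ^ 2`. -/
def S_GRO : Prop := ∀ (b q : ℕ), 2 ≤ b → 2 ≤ q → ∀ β : ℝ,
  ((∃ n, 2 * Real.log q + 1 ≤ Kf b q β n) → ∃ C : ℝ, ∀ n : ℕ, (n : ℝ) - C ≤ Kf b q β n) ∧
  ∀ n, 0 ≤ Kf b q β (n + 1)

/-- CRI: the critical point. Proof: `F K = b log ((exp (2 K) + q - 1) / (2 exp K + q - 2))` is
continuous and monotone on `[0, ∞)` (the derivative of the quotient has the sign of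
`(exp K - 1) (exp K + q - 1)`), `F 0 = 0`, `F K ≤ K` for small `K ≥ 0`
(`(exp K - 1) ^ 2 / (2 exp K + q - 2) ≤ (exp K - 1) ^ 2`, `log (1 + x) ≤ x`). So the set of
the `β ≥ 0` with `2 log q + 1 ≤ Kf n` for some `n` is an up-set without small elements and with the
element `2 log q + 1`; it is open because then `Kf (n + 1) ≥ Kf n + 1` (`S_GRO`) and `Kf (n + 1)` is
continuous in `β`; let `βc` be its infimum. -/
def S_CRI : Prop := ∀ (b q : ℕ), 2 ≤ b → 2 ≤ q → ∃ βc : ℝ, 0 < βc ∧ ∀ β : ℝ, 0 ≤ β →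
  ((∃ n, 2 * Real.log q + 1 ≤ Kf b q β n) ↔ βc < β)

/-- PUR (from `S_EXI`, `S_GEO`, `S_CNS`, `S_MID`, `S_GWF`): the states `π k`. Proof: given the ends
`(k, k)` of `H (m + 1)` the ends of `H m` are `(k, k)` with probability at least
`1 - q exp (-(2 Kf m))` (`S_MID`); so `GG β p N 1{ends n = (k, k)} (fun _ => k) ≥
1 - ∑ m in [n, N), q exp (-(2 Kf m))`, and the sum from `n` to infinity tends to `0`. -/
def S_PUR : Prop := ∀ (b q : ℕ), 2 ≤ q → ∀ (β : ℝ) (p : ℕ → Fin b × Bool),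
  (∃ C : ℝ, ∀ n : ℕ, (n : ℝ) - C ≤ Kf b q β n) → ∀ k : Fin q,
  ∃ μ : Measure (VInf p → Fin q), IsGibbs β p μ ∧
    Tendsto (fun n => μ.real {ω | ends p n ω = fun _ => k}) atTop (𝓝 1)

/-- DIF (from `S_TOP`, `S_GEO`): the ends agree at infinity. Proof: let `u n` be the probability that
the spins of the two ends of `H n` are different. Given equal ends of `H (n + 1)` it is at most
`q exp (-(2 Kf n))`; given different ends `a, a'` of `H (n + 1)` the middle spin has the weights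
`exp (Kf n)` for `a` and for `a'`, `1` for the others, so the probability that the kept end and the
middle spin are different is at most `1 / 2 + q exp (-(Kf n)) / 2`. So
`u n ≤ e n + (1 / 2 + e n) u (n + 1)` with `e n → 0`, `0 ≤ u ≤ 1`, hence `u n → 0`. -/
def S_DIF : Prop := ∀ (b q : ℕ), 2 ≤ q → ∀ (β : ℝ) (p : ℕ → Fin b × Bool),
  (∃ C : ℝ, ∀ n : ℕ, (n : ℝ) - C ≤ Kf b q β n) → ∀ μ : Measure (VInf p → Fin q), IsGibbs β p μ →
    Tendsto (fun n => μ.real {ω | ends p n ω false ≠ ends p n ω true}) atTop (𝓝 0)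

/-- MIX (from `S_DIF`, `S_GEO`, `S_GWF`): the simplex. Proof: let `f` be a bounded function of the
spins in `H m` (a cylinder function); for `N ≥ m`, `GG β p N f ω = a N (ends p N ω)`. For a Gibbs
state `μ`, `∫ f ∂μ = ∑ τ, μ {ends N = τ} a N τ`; for `π k` this gives
`a N (k, k) - ∫ f ∂(π k) → 0`. So `∫ f ∂μ - ∑ k, μ {ends N = (k, k)} ∫ f ∂(π k) → 0` by `S_DIF`; the
numbers `μ {ends N = (k, k)}` have a cluster point `t` (limit along an ultrafilter), `∑ t = 1`. The
measures agree on cylinders, hence everywhere. Uniqueness: `(∑ t j • π j) {ends N = (k, k)} → t k`.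
Mixtures of Gibbs states are Gibbs states (linearity). -/
def S_MIX : Prop := ∀ (b q : ℕ), 2 ≤ q → ∀ (β : ℝ) (p : ℕ → Fin b × Bool),
  (∃ C : ℝ, ∀ n : ℕ, (n : ℝ) - C ≤ Kf b q β n) → ∀ π : Fin q → Measure (VInf p → Fin q),
  (∀ k, IsGibbs β p (π k)) →
  (∀ k, Tendsto (fun n => (π k).real {ω | ends p n ω = fun _ => k}) atTop (𝓝 1)) →
  (∀ t : Fin q → ℝ≥0∞, ∑ k, t k = 1 → IsGibbs β p (∑ k, t k • π k)) ∧
  (∀ μ, IsGibbs β p μ → ∃! t : Fin q → ℝ≥0∞, ∑ k, t k = 1 ∧ μ = ∑ k, t k • π k)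

/-- SYM (from `S_MIX`, `S_GEO`): permutations of the colours. Proof: `(π k).map (g ∘ ·)` is a Gibbs
state (`act` is invariant) and its ends are `(g k, g k)` with probability tending to `1`; so in its
representation `t = Pi.single (g k) 1`. -/
def S_SYM : Prop := ∀ (b q : ℕ), 2 ≤ q → ∀ (β : ℝ) (p : ℕ → Fin b × Bool),
  (∃ C : ℝ, ∀ n : ℕ, (n : ℝ) - C ≤ Kf b q β n) → ∀ π : Fin q → Measure (VInf p → Fin q),
  (∀ k, IsGibbs β p (π k)) →
  (∀ k, Tendsto (fun n => (π k).real {ω | ends p n ω = fun _ => k}) atTop (𝓝 1)) →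
  ∀ (g : Equiv.Perm (Fin q)) (k : Fin q), (π k).map (fun ω v => g (ω v)) = π (g k)

end

end Pool.Agent.N990.PT
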