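import Mathlib
import Pool.Agent.N990.PT.Stm

/-!
# The Potts model on hierarchical lattices: assembly (from the statements of the parts)
-/

open MeasureTheory Filter
open scoped ENNReal Topology
open Pool.Agent.N988.EA

namespace Pool.Agent.N990.PT

noncomputable section

theorem sum_single {b q : ℕ} {p : ℕ → Fin b × Bool} (π : Fin q → Measure (VInf p → Fin q))
    (i : Fin q) : ∑ k, (Pi.single i 1 : Fin q → ℝ≥0∞) k • π k = π i := by
  rw [Finset.sum_eq_single i]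
  · simp
  · intro k _ hk
    simp [Pi.single_apply, hk]
  · simp

theorem asm (hexi : S_EXI) (huni : S_UNI) (hgro : S_GRO) (hcri : S_CRI) (hpur : S_PUR)
    (hmix : S_MIX) (hsym : S_SYM) (b q : ℕ) (hb : 2 ≤ b) (hq : 2 ≤ q) :
    (∃ βc : ℝ, 0 < βc ∧ ∀ β : ℝ, 0 ≤ β →
      (β ≤ βc → ∀ n, Kf b q β n < 2 * Real.log q + 1) ∧
      (βc < β → Filter.Tendsto (Kf b q β) Filter.atTop Filter.atTop)) ∧
    ∀ (β : ℝ) (p : ℕ → Fin b × Bool), (∀ (s : Bool) (k : ℕ), ∃ n, k ≤ n ∧ (p n).2 = s) →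
      ((∀ n, Kf b q β n < 2 * Real.log q + 1) →
        ∃! μ : Measure (VInf p → Fin q), IsGibbs β p μ) ∧
      (Filter.Tendsto (Kf b q β) Filter.atTop Filter.atTop →
        ∃ π : Fin q → Measure (VInf p → Fin q), Function.Injective π ∧
          (∀ (g : Equiv.Perm (Fin q)) (k : Fin q),
            (π k).map (fun ω v => g (ω v)) = π (g k)) ∧
          (∀ t : Fin q → ℝ≥0∞, ∑ k, t k = 1 → IsGibbs β p (∑ k, t k • π k)) ∧
          ∀ μ, IsGibbs β p μ →
            ∃! t : Fin q → ℝ≥0∞, ∑ k, t k = 1 ∧ μ = ∑ k, t k • π k) := by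
  have htend : ∀ β, (∃ n, 2 * Real.log q + 1 ≤ Kf b q β n) →
      Tendsto (Kf b q β) atTop atTop := by
    intro β h
    obtain ⟨C, hC⟩ := (hgro b q hb hq β).1 h
    refine tendsto_atTop_mono hC ?_
    exact tendsto_atTop_add_const_right atTop (-C) tendsto_natCast_atTop_atTop
  obtain ⟨βc, h0, hc⟩ := hcri b q hb hq
  refine ⟨⟨βc, h0, fun β hβ => ⟨fun h n => ?_, fun h => htend β ((hc β hβ).2 h)⟩⟩,
    fun β p hp => ⟨fun h => ?_, fun h => ?_⟩⟩
  · by_contra hn
    exact absurd ((hc β hβ).1 ⟨n, not_lt.1 hn⟩) (not_lt.2 h)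
  · obtain ⟨μ, hμ, -⟩ := hexi b q β p ⟨0, by omega⟩
    refine ⟨μ, hμ, fun μ' h' => huni b q hq β p hp ⟨max |β| (2 * Real.log q + 1), ?_⟩ μ' μ h' hμ⟩
    intro n
    cases n with
    | zero => exact le_max_left _ _
    | succ n =>
      rw [abs_of_nonneg ((hgro b q hb hq β).2 n)]
      exact (h (n + 1)).le.trans (le_max_right _ _)
  · obtain ⟨n, hn⟩ := (h.eventually_ge_atTop (2 * Real.log q + 1)).exists
    have hC := (hgro b q hb hq β).1 ⟨n, hn⟩
    choose π hπ1 hπ2 using fun k => hpur b q hq β p hC k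
    obtain ⟨hm1, hm2⟩ := hmix b q hq β p hC π hπ1 hπ2
    refine ⟨π, ?_, hsym b q hq β p hC π hπ1 hπ2, hm1, hm2⟩
    intro i j hij
    have h1 : ∀ k : Fin q, ∑ l, (Pi.single k 1 : Fin q → ℝ≥0∞) l = 1 := by
      intro k
      rw [Finset.sum_pi_single']
      simp
    have h2 := (hm2 (π i) (hπ1 i)).unique ⟨h1 i, (sum_single π i).symm⟩
      ⟨h1 j, by rw [sum_single π j]; exact hij⟩
    by_contra hne
    have h3 := congrFun h2 i
    rw [Pi.single_eq_same, Pi.single_eq_of_ne hne] at h3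
    exact one_ne_zero h3

end

end Pool.Agent.N990.PT
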