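import Mathlib
import Pool.Agent.N990.PT.Stm
import Pool.Agent.N990.PT.Asm
import Pool.Agent.N371.PT.GEO
import Pool.Agent.N773.PT.GWF
import Pool.Agent.N377.PT.FIN
import Pool.Agent.N195.PT.CNS
import Pool.Agent.N793.PT.MID
import Pool.Agent.N950.PT.TOP
import Pool.Agent.N318.PT.DET
import Pool.Agent.N118.PT.UNI
import Pool.Agent.N615.PT.EXI
import Pool.Agent.N494.PT.GRO
import Pool.Agent.N937.PT.CRI
import Pool.Agent.N478.PT.PUR
import Pool.Agent.N395.PT.DIF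
import Pool.Agent.N655.PT.MIX
import Pool.Agent.N530.PT.SYM

/-!
# The Potts model on hierarchical lattices: main theorem
-/

open MeasureTheory Filter
open scoped ENNReal Topology
open Pool.Agent.N988.EA

namespace Pool.Agent.N990.PT

noncomputable section

theorem k_geo : S_GEO := Pool.Agent.N371.PT.t_geo
theorem k_gwf : S_GWF := Pool.Agent.N773.PT.t_gwf
theorem k_fin : S_FIN := Pool.Agent.N377.PT.t_fin
theorem k_cns : S_CNS := Pool.Agent.N195.PT.t_cns k_fin k_geo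
theorem k_mid : S_MID := Pool.Agent.N793.PT.t_mid
theorem k_top : S_TOP := Pool.Agent.N950.PT.t_top k_geo k_mid
theorem k_det : S_DET := Pool.Agent.N318.PT.t_det k_geo k_gwf
theorem k_uni : S_UNI := Pool.Agent.N118.PT.t_uni k_top k_det k_geo
theorem k_exi : S_EXI := Pool.Agent.N615.PT.t_exi k_cns k_geo k_gwf
theorem k_gro : S_GRO := Pool.Agent.N494.PT.t_gro
theorem k_cri : S_CRI := Pool.Agent.N937.PT.CRI.t_cri k_gro
theorem k_pur : S_PUR := Pool.Agent.N478.PT.t_pur k_exi k_geo k_cns k_mid k_gwf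
theorem k_dif : S_DIF := Pool.Agent.N395.PT.t_dif k_top k_geo
theorem k_mix : S_MIX := Pool.Agent.N655.PT.t_mix k_dif k_geo k_gwf
theorem k_sym : S_SYM := Pool.Agent.N530.PT.t_sym k_mix k_geo

theorem main (b q : ℕ) (hb : 2 ≤ b) (hq : 2 ≤ q) :
    (∃ βc : ℝ, 0 < βc ∧ ∀ β : ℝ, 0 ≤ β →
      (β ≤ βc → ∀ n, Kf b q β n < 2 * Real.log q + 1) ∧
      (βc < β → Filter.Tendsto (Kf b q β) Filter.atTop Filter.atTop)) ∧
    ∀ (β : ℝ) (p : ℕ → Fin b × Bool), (∀ (s : Bool) (k : ℕ), ∃ n, k ≤ n ∧ (p n).2 = s) →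
      ((∀ n, Kf b q β n < 2 * Real.log q + 1) →
        ∃! μ : Measure (VInf p → Fin q), IsGibbs β p μ) ∧
      (Filter.Tendsto (Kf b q β) Filter.atTop Filter.atTop →
        ∃ π : Fin q → Measure (VInf p → Fin q), Function.Injective π ∧
          (∀ (g : Equiv.Perm (Fin q)) (k : Fin q),
            (π k).map (fun ω v => g (ω v)) = π (g k)) ∧
          (∀ t : Fin q → ℝ≥0∞, ∑ k, t k = 1 → IsGibbs β p (∑ k, t k • π k)) ∧
          ∀ μ, IsGibbs β p μ →
            ∃! t : Fin q → ℝ≥0∞, ∑ k, t k = 1 ∧ μ = ∑ k, t k • π k) :=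
  asm k_exi k_uni k_gro k_cri k_pur k_mix k_sym b q hb hq

end

end Pool.Agent.N990.PT
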